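import Mathlib

set_option autoImplicit false

open Module InnerProductSpace

namespace Pool.Agent.Helper9_KyFan

variable {E : Type*} [NormedAddCommGroup E] [InnerProductSpace ℂ E] [FiniteDimensional ℂ E]

/-- Duality lower bound for the trace norm: if `W` preserves norms, then
`Re tr (W T)` is at most the sum of the singular values of `T`. -/
lemma re_trace_comp_le {n : ℕ} (hn : finrank ℂ E = n) (T W : E →ₗ[ℂ] E)
    (hW : ∀ x, ‖W x‖ = ‖x‖) :
    (LinearMap.trace ℂ E (W ∘ₗ T)).re ≤ ∑ i ∈ Finset.range n, T.singularValues i := by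
  set hT := T.isSymmetric_adjoint_comp_self
  set b := hT.eigenvectorBasis hn with hb
  rw [LinearMap.trace_eq_sum_inner (W ∘ₗ T) b, Complex.re_sum, Finset.sum_range]
  apply Finset.sum_le_sum
  intro i _
  have h1 : (inner ℂ (b i) ((W ∘ₗ T) (b i))).re ≤ ‖b i‖ * ‖(W ∘ₗ T) (b i)‖ :=
    re_inner_le_norm (𝕜 := ℂ) _ _
  have h2 : ‖(W ∘ₗ T) (b i)‖ = ‖T (b i)‖ := by
    rw [LinearMap.comp_apply, hW]
  have h3 : ‖b i‖ = 1 := b.orthonormal.1 i
  have h4 : ‖T (b i)‖ ^ 2 = hT.eigenvalues hn i := by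
    have h5 : (inner ℂ (T (b i)) (T (b i)) : ℂ) = hT.eigenvalues hn i := by
      rw [← LinearMap.adjoint_inner_right]
      have h6 : T.adjoint (T (b i)) = (hT.eigenvalues hn i : ℂ) • b i :=
        hT.apply_eigenvectorBasis hn i
      rw [h6, inner_smul_right, inner_self_eq_norm_sq_to_K, h3]
      simp
    have h7 : ((‖T (b i)‖ ^ 2 : ℝ) : ℂ) = (hT.eigenvalues hn i : ℂ) := by
      rw [← h5, inner_self_eq_norm_sq_to_K]
      simp
    exact_mod_cast h7
  have h8 : T.singularValues i = ‖T (b i)‖ := by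
    rw [T.singularValues_fin hn i, ← h4, Real.sqrt_sq (norm_nonneg _)]
  rw [h8]
  calc _ ≤ ‖b i‖ * ‖(W ∘ₗ T) (b i)‖ := h1
    _ = ‖T (b i)‖ := by rw [h2, h3, one_mul]

/-- If `T† T = 1`, all the singular values with index below the dimension are `1`. -/
lemma singularValues_of_isometry {n : ℕ} (hn : finrank ℂ E = n) (T : E →ₗ[ℂ] E)
    (hT1 : T.adjoint ∘ₗ T = LinearMap.id) (i : ℕ) (hi : i < n) : T.singularValues i = 1 := by
  set hT := T.isSymmetric_adjoint_comp_self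
  set b := hT.eigenvectorBasis hn with hb
  have h6 : (T.adjoint ∘ₗ T) (b ⟨i, hi⟩) = (hT.eigenvalues hn ⟨i, hi⟩ : ℂ) • b ⟨i, hi⟩ :=
    hT.apply_eigenvectorBasis hn ⟨i, hi⟩
  have hid : (T.adjoint ∘ₗ T) (b ⟨i, hi⟩) = b ⟨i, hi⟩ := by
    rw [LinearMap.congr_fun hT1 (b ⟨i, hi⟩)]; rfl
  have hne : b ⟨i, hi⟩ ≠ 0 := by
    intro h
    have := b.orthonormal.1 ⟨i, hi⟩
    rw [h, norm_zero] at this
    exact zero_ne_one this
  have h7 : (hT.eigenvalues hn ⟨i, hi⟩ : ℂ) = 1 := by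
    have h8 : (1 : ℂ) • b ⟨i, hi⟩ = (hT.eigenvalues hn ⟨i, hi⟩ : ℂ) • b ⟨i, hi⟩ := by
      rw [one_smul, ← h6, hid]
    exact (smul_left_injective ℂ hne h8).symm
  have h9 : hT.eigenvalues hn ⟨i, hi⟩ = 1 := by exact_mod_cast h7
  rw [T.singularValues_of_lt hn hi, h9, Real.sqrt_one]

/-- If `M = T† T` satisfies `M² = c² M` then the sum of the singular values is
`(Re tr M) / c`. -/
lemma sum_singularValues_of_sq {n : ℕ} (hn : finrank ℂ E = n) (T : E →ₗ[ℂ] E) (c : ℝ) (hc : 0 < c)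
    (hM : (T.adjoint ∘ₗ T) ∘ₗ (T.adjoint ∘ₗ T) = ((c : ℂ) ^ 2) • (T.adjoint ∘ₗ T)) :
    ∑ i ∈ Finset.range n, T.singularValues i =
      (LinearMap.trace ℂ E (T.adjoint ∘ₗ T)).re / c := by
  set hT := T.isSymmetric_adjoint_comp_self
  set b := hT.eigenvectorBasis hn with hb
  have htr : (LinearMap.trace ℂ E (T.adjoint ∘ₗ T)).re = ∑ i, hT.eigenvalues hn i :=
    hT.re_trace_eq_sum_eigenvalues hn
  rw [htr, Finset.sum_range, Finset.sum_div]
  apply Finset.sum_congr rfl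
  intro i _
  have h6 : (T.adjoint ∘ₗ T) (b i) = (hT.eigenvalues hn i : ℂ) • b i :=
    hT.apply_eigenvectorBasis hn i
  have hne : b i ≠ 0 := by
    intro h
    have := b.orthonormal.1 i
    rw [h, norm_zero] at this
    exact zero_ne_one this
  have h7 := congrArg (fun f => f (b i)) hM
  simp only [LinearMap.comp_apply (T.adjoint ∘ₗ T), LinearMap.smul_apply] at h7
  rw [h6, map_smul, h6, smul_smul, smul_smul] at h7
  have h8 : (hT.eigenvalues hn i : ℂ) * hT.eigenvalues hn i = (c : ℂ) ^ 2 * hT.eigenvalues hn i :=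
    smul_left_injective ℂ hne h7
  have h9 : hT.eigenvalues hn i * hT.eigenvalues hn i = c ^ 2 * hT.eigenvalues hn i := by
    exact_mod_cast h8
  rw [T.singularValues_fin hn i]
  rcases eq_or_ne (hT.eigenvalues hn i) 0 with h0 | h0
  · rw [h0]; simp
  · have h10 : hT.eigenvalues hn i = c ^ 2 := mul_right_cancel₀ h0 h9
    rw [h10, Real.sqrt_sq hc.le]
    field_simp

end Pool.Agent.Helper9_KyFan
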